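import Mathlib

/-!
# ALL CURVES: filtered algebras like the coordinate rings of plane curves (definitions)

Page with all proofs: /team-store/allcurves_page.md.

`Flt k A B d`: the `k`-algebra `A` with the subspaces `V N` (elements of total degree at most
`N`) and
the leading forms `l N : A → B`. `Md F`: the modulus `D`. `P.E N`: the elements of `V N` with
leading
form `1` which are `1` modulo `D`. `cut b N`: the elements of `V N` in the ideal `b` of `R =
A[1/D]`.
-/

set_option autoImplicit false

namespace Pool.Agent.CvA

/-- the arithmetic genus of a plane curve of degree `d` -/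
def pa (d : ℕ) : ℕ := (d - 1) * (d - 2) / 2

/-- An algebra with a filtration like the filtration of the coordinate ring of a plane curve of
degree `d` by the total degree; `l N` is the leading form of degree `N`. -/
structure Flt (k A B : Type) [Field k] [CommRing A] [Algebra k A] [CommRing B] [Algebra k B]
    (d : ℕ) where
  /-- the elements of total degree at most `N` -/
  V : ℕ → Submodule k A
  /-- the leading form -/
  l : ℕ → A →ₗ[k] B
  one_le : 1 ≤ d
  mono : ∀ N, V N ≤ V (N + 1)
  exh : ∀ a, ∃ N, a ∈ V N
  zero : V 0 = 1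
  fin : ∀ N, FiniteDimensional k (V N)
  dim : ∀ N, d ≤ N + 1 → Module.finrank k (V N) + pa d = d * N + 1
  mul : ∀ {N M : ℕ} {a b : A}, a ∈ V N → b ∈ V M → a * b ∈ V (N + M)
  gen : ∀ N, V (N + 1) ≤ V 1 * V N
  finB : FiniteDimensional k B
  dimB : Module.finrank k B = d
  l_one : l 0 1 = 1
  l_zero : ∀ a ∈ V 0, l 0 a = 0 → a = 0
  l_succ : ∀ N, ∀ a ∈ V (N + 1), l (N + 1) a = 0 ↔ a ∈ V N
  l_mul : ∀ {N M : ℕ} {a b : A}, a ∈ V N → b ∈ V M → l (N + M) (a * b) = l N a * l M b

variable {k A B : Type} [Field k] [CommRing A] [Algebra k A] [CommRing B] [Algebra k B] {d : ℕ}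

/-- a modulus: an element whose leading form is a unit -/
structure Md (F : Flt k A B d) where
  /-- the modulus -/
  D : A
  /-- the degree of the modulus -/
  Dl : ℕ
  mem : D ∈ F.V Dl
  unit : IsUnit (F.l Dl D)

variable {F : Flt k A B d}

/-- the elements of degree `N` with leading form `1` which are `1` modulo `D` -/
def Md.E (P : Md F) (N : ℕ) : Set A := {g | g ∈ F.V N ∧ F.l N g = 1 ∧ P.D ∣ g - 1}

/-- the bound for the effectivity of ray classes -/
def Md.n1 (P : Md F) : ℕ := d ^ 3 + d + d * P.Dl

/-- the degree (divided by `d`) of the ideals which represent the classes -/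
def Md.M (P : Md F) : ℕ := 2 * d ^ 2 + 1 + P.Dl

/-- the elements of degree at most `N` in the ideal `I` of `A` -/
def Flt.cutA (F : Flt k A B d) (I : Ideal A) (N : ℕ) : Submodule k A :=
  F.V N ⊓ I.restrictScalars k

/-- the elements of degree at most `N` in the ideal `b` of `R` -/
def Flt.cut (F : Flt k A B d) {R : Type} [CommRing R] [Algebra A R] (b : Ideal R) (N : ℕ) :
    Submodule k A :=
  F.cutA (b.comap (algebraMap A R)) N

end Pool.Agent.CvA
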